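import Mathlib

set_option autoImplicit false

namespace Pool.Agent.Results.MP_5ead0a_co.ThreeCriticalOrder28

/-- `D` is a dominating set of `G`. -/
def IsDominating {V : Type*} (G : SimpleGraph V) (D : Finset V) : Prop :=
  ∀ v, v ∉ D → ∃ u ∈ D, G.Adj v u

/-- `D` is independent. -/
def IsIndep {V : Type*} (G : SimpleGraph V) (D : Finset V) : Prop :=
  ∀ u ∈ D, ∀ v ∈ D, ¬ G.Adj u v

/-- The domination number. -/
noncomputable def gamma {V : Type*} (G : SimpleGraph V) : ℕ :=
  sInf {k | ∃ D : Finset V, IsDominating G D ∧ D.card = k}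

/-- The independent domination number. -/
noncomputable def indepDom {V : Type*} (G : SimpleGraph V) : ℕ :=
  sInf {k | ∃ D : Finset V, IsDominating G D ∧ IsIndep G D ∧ D.card = k}

/-- `G` is 3-critical: `γ(G) = 3` and adding any missing edge gives a graph with `γ < 3`. -/
def IsThreeCritical {V : Type*} (G : SimpleGraph V) : Prop :=
  gamma G = 3 ∧ ∀ u v : V, u ≠ v → ¬ G.Adj u v → gamma (G ⊔ SimpleGraph.edge u v) < 3

/-- The vertices: `4` rows with `7` vertices each. -/
abbrev W := Fin 4 × Fin 7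

/-- The edges inside the rows; over the four rows they partition the edges of `K₇`. -/
def rowEdges : Fin 4 → List (Fin 7 × Fin 7)
  | 0 => [(0, 3), (0, 4), (0, 5), (1, 3), (1, 4), (1, 5), (2, 3), (2, 4), (2, 5)]
  | 1 => [(0, 1), (1, 2), (2, 6), (6, 0), (3, 4)]
  | 2 => [(3, 5), (5, 4), (4, 6), (6, 3), (0, 2)]
  | 3 => [(1, 6), (5, 6)]

/-- Adjacency: in the same row according to `rowEdges`; in different rows iff the columns are
different. -/
def A (a b : W) : Prop :=
  (a.1 = b.1 ∧ ((a.2, b.2) ∈ rowEdges a.1 ∨ (b.2, a.2) ∈ rowEdges a.1)) ∨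
    (a.1 ≠ b.1 ∧ a.2 ≠ b.2)

instance : DecidableRel A := fun a b => by unfold A; infer_instance

theorem A_symm : ∀ a b, A a b → A b a := by
  rintro a b (⟨h, h1 | h1⟩ | ⟨h, h1⟩)
  · exact Or.inl ⟨h.symm, Or.inr (h ▸ h1)⟩
  · exact Or.inl ⟨h.symm, Or.inl (h ▸ h1)⟩
  · exact Or.inr ⟨h.symm, h1.symm⟩

theorem A_irrefl : ∀ a, ¬ A a a := by decide +kernel

/-- The graph on `28` vertices. -/
def G28 : SimpleGraph W where
  Adj := A
  symm := ⟨A_symm⟩
  loopless := ⟨A_irrefl⟩

/-- The adjacency matrix of the graph, as the binary digits of a number. -/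
def matrix : ℕ := 27420550100818625103371377443078207163005073069543669020308219600042998971224391202597079787001587649986175185046938475932146399913771761616746115471994623189669297275246147520506498881736074862991391836447622710120971080815312979869496

/-- A fast version of the adjacency relation. -/
def fA (a b : W) : Bool :=
  Nat.testBit matrix (28 * (7 * a.1.val + a.2.val) + (7 * b.1.val + b.2.val))

theorem A_iff : ∀ a b : W, A a b ↔ fA a b = true := by decide +kernel

theorem undom2_fast : ∀ u v : W, ∃ z, (z ≠ u ∧ z ≠ v) ∧ (fA z u || fA z v) = false := by decide +kernel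

theorem undom3_fast : ∀ u v : W, fA u v = false → ∀ w : W, (fA u w || fA v w) = false →
    ∃ z, (fA z u || fA z v || fA z w) = false ∧ z ≠ u ∧ z ≠ v ∧ z ≠ w := by decide +kernel

theorem crit_fast : ∀ u v : W, fA u v = false → u ≠ v →
    ∃ w : W, (∀ z, (fA z u || fA z w) = true ∨ z = v ∨ z = u ∨ z = w) ∨
      (∀ z, (fA z v || fA z w) = true ∨ z = u ∨ z = v ∨ z = w) := by decide +kernel

theorem not_A {a b : W} : ¬ A a b ↔ fA a b = false := by
  rw [A_iff]; simp

theorem fA_comm (a b : W) : fA a b = fA b a := by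
  rw [Bool.eq_iff_iff, ← A_iff, ← A_iff]
  exact ⟨A_symm a b, A_symm b a⟩

/-- A finset with at most two elements is contained in a pair. -/
theorem sub_pair (D : Finset W) (h : D.card ≤ 2) : ∃ u v, D ⊆ {u, v} := by
  obtain ⟨E, hDE, _, hE⟩ := Finset.exists_subsuperset_card_eq (Finset.subset_univ D) h
    (by decide : 2 ≤ (Finset.univ : Finset W).card)
  obtain ⟨u, v, _, rfl⟩ := Finset.card_eq_two.mp hE
  exact ⟨u, v, hDE⟩

theorem three_le_of_dom (D : Finset W) (hD : IsDominating G28 D) : 3 ≤ D.card := by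
  by_contra hcon
  obtain ⟨u, v, huv⟩ := sub_pair D (by omega)
  obtain ⟨z, ⟨hzu, hzv⟩, hz⟩ := undom2_fast u v
  rw [Bool.or_eq_false_iff] at hz
  have hzD : z ∉ D := fun h => by
    have := huv h
    simp [hzu, hzv] at this
  obtain ⟨x, hx, hadj⟩ := hD z hzD
  have hx' := huv hx
  rw [Finset.mem_insert, Finset.mem_singleton] at hx'
  rcases hx' with rfl | rfl
  · exact not_A.mpr hz.1 hadj
  · exact not_A.mpr hz.2 hadj

theorem four_le_of_indep (D : Finset W) (hD : IsDominating G28 D) (hI : IsIndep G28 D) :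
    4 ≤ D.card := by
  have h3 := three_le_of_dom D hD
  by_contra hcon
  obtain ⟨u, v, w, _, _, _, rfl⟩ := Finset.card_eq_three.mp (by omega : D.card = 3)
  have huv : fA u v = false := not_A.mp (hI u (by simp) v (by simp))
  have huw : fA u w = false := not_A.mp (hI u (by simp) w (by simp))
  have hvw : fA v w = false := not_A.mp (hI v (by simp) w (by simp))
  obtain ⟨z, hz, hzu, hzv, hzw⟩ := undom3_fast u v huv w (by simp [huw, hvw])
  rw [Bool.or_eq_false_iff, Bool.or_eq_false_iff] at hz
  obtain ⟨x, hx, hadj⟩ := hD z (by simp [hzu, hzv, hzw])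
  simp only [Finset.mem_insert, Finset.mem_singleton] at hx
  rcases hx with rfl | rfl | rfl
  · exact not_A.mpr hz.1.1 hadj
  · exact not_A.mpr hz.1.2 hadj
  · exact not_A.mpr hz.2 hadj

theorem dom3 : ∀ v : W, v ∉ ({(0, 0), (1, 1), (2, 2)} : Finset W) →
    ∃ u ∈ ({(0, 0), (1, 1), (2, 2)} : Finset W), A v u := by decide +kernel

theorem dom4 : ∀ v : W, v ∉ ({(0, 0), (1, 0), (2, 0), (3, 0)} : Finset W) →
    ∃ u ∈ ({(0, 0), (1, 0), (2, 0), (3, 0)} : Finset W), A v u := by decide +kernel

theorem indep4 : ∀ u ∈ ({(0, 0), (1, 0), (2, 0), (3, 0)} : Finset W),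
    ∀ v ∈ ({(0, 0), (1, 0), (2, 0), (3, 0)} : Finset W), ¬ A u v := by decide +kernel

theorem gamma_eq : gamma G28 = 3 := by
  apply le_antisymm
  · exact Nat.sInf_le ⟨{(0, 0), (1, 1), (2, 2)}, dom3, by decide⟩
  · refine le_csInf ⟨_, {(0, 0), (1, 1), (2, 2)}, dom3, rfl⟩ ?_
    rintro k ⟨D, hD, rfl⟩
    exact three_le_of_dom D hD

theorem indepDom_eq : indepDom G28 = 4 := by
  apply le_antisymm
  · exact Nat.sInf_le ⟨{(0, 0), (1, 0), (2, 0), (3, 0)}, dom4, indep4, by decide⟩
  · refine le_csInf ⟨_, {(0, 0), (1, 0), (2, 0), (3, 0)}, dom4, indep4, rfl⟩ ?_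
    rintro k ⟨D, hD, hI, rfl⟩
    exact four_le_of_indep D hD hI

/-- If `{u, w}` dominates everything except possibly `v`, then it dominates after adding `uv`. -/
theorem gamma_add_lt (u v w : W) (huv : u ≠ v)
    (h : ∀ z, (fA z u || fA z w) = true ∨ z = v ∨ z = u ∨ z = w) :
    gamma (G28 ⊔ SimpleGraph.edge u v) < 3 := by
  have hdom : IsDominating (G28 ⊔ SimpleGraph.edge u v) {u, w} := by
    intro z hz
    rw [Finset.mem_insert, Finset.mem_singleton, not_or] at hz
    rcases h z with h | h | h | h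
    · rw [Bool.or_eq_true] at h
      rcases h with h | h
      · exact ⟨u, by simp, Or.inl ((A_iff z u).mpr h)⟩
      · exact ⟨w, by simp, Or.inl ((A_iff z w).mpr h)⟩
    · subst h
      refine ⟨u, by simp, Or.inr ?_⟩
      rw [SimpleGraph.edge_adj]
      exact ⟨Or.inr ⟨rfl, rfl⟩, huv.symm⟩
    · exact absurd h hz.1
    · exact absurd h hz.2
  have : gamma (G28 ⊔ SimpleGraph.edge u v) ≤ ({u, w} : Finset W).card :=
    Nat.sInf_le ⟨_, hdom, rfl⟩
  have h2 : ({u, w} : Finset W).card ≤ 2 := Finset.card_le_two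
  omega

theorem critical : IsThreeCritical G28 := by
  refine ⟨gamma_eq, fun u v huv hadj => ?_⟩
  obtain ⟨w, h | h⟩ := crit_fast u v (not_A.mp hadj) huv
  · exact gamma_add_lt u v w huv h
  · have := gamma_add_lt v u w huv.symm h
    rwa [SimpleGraph.edge_comm] at this

/-- **There is a 3-critical graph on `28` vertices (so with fewer than `56` vertices) whose
independent domination number is `4`, different from its domination number `3`.** -/
theorem result : ∃ (V : Type) (_ : Fintype V) (G : SimpleGraph V),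
    Fintype.card V = 28 ∧ IsThreeCritical G ∧ indepDom G = 4 ∧ gamma G ≠ indepDom G := by
  refine ⟨W, inferInstance, G28, by simp, critical, indepDom_eq, ?_⟩
  rw [gamma_eq, indepDom_eq]
  decide

end Pool.Agent.Results.MP_5ead0a_co.ThreeCriticalOrder28
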